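import Mathlib

/-!
# Orbit polytopes: definitions
-/

set_option autoImplicit false

open scoped ContDiff

namespace Pool.Agent.Lib.MP_427d8c_co

/-- `ℝ^k` with its Euclidean structure. -/
abbrev E (k : ℕ) : Type := EuclideanSpace ℝ (Fin k)

/-- Subgroups of `O(k)`, the group of linear isometries of `ℝ^k`. -/
abbrev SubgroupO (k : ℕ) : Type := Subgroup (E k ≃ₗᵢ[ℝ] E k)

/-- The elements of `Γ` as maps `ℝ^k → ℝ^k`. -/
def maps {k : ℕ} (Γ : SubgroupO k) : Set (E k → E k) := {f | ∃ g ∈ Γ, ∀ x, f x = g x}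

/-- `Γ` acts irreducibly on `ℝ^k`. -/
def IsIrreducibleAction {k : ℕ} (Γ : SubgroupO k) : Prop :=
  ∀ W : Submodule ℝ (E k), (∀ f ∈ maps Γ, ∀ x ∈ W, f x ∈ W) → W = ⊥ ∨ W = ⊤

/-- The orbit `Γ w`. -/
def orbit {k : ℕ} (Γ : SubgroupO k) (w : E k) : Set (E k) := {x | ∃ f ∈ maps Γ, f w = x}

/-- The orbit polytope `Q_w = conv(Γ w)`. -/
def orbitPolytope {k : ℕ} (Γ : SubgroupO k) (w : E k) : Set (E k) := convexHull ℝ (orbit Γ w)

/-- `F` is a face of the polytope `Q` (the empty set and `Q` included). -/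
def IsFace {k : ℕ} (Q F : Set (E k)) : Prop := IsExposed ℝ Q F

/-- `{s,t}` is an edge of the polytope `Q`: the segment `[s,t]` is a (nondegenerate) face of `Q`. -/
def IsEdge {k : ℕ} (Q : Set (E k)) (s t : E k) : Prop := s ≠ t ∧ IsFace Q (segment ℝ s t)

/-- The set of vertices of the polytope `Q`. -/
def vertices {k : ℕ} (Q : Set (E k)) : Set (E k) := Q.extremePoints ℝ

/-- The polar dual `Q* = {y | ⟨x,y⟩ ≤ 1 for all x ∈ Q}`. -/
def polarDual {k : ℕ} (Q : Set (E k)) : Set (E k) := {y | ∀ x ∈ Q, inner ℝ x y ≤ 1}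

/-- The face `F_st` of `Q*` in which the facets of `Q*` dual to the vertices `s` and `t` meet. -/
def dualFace {k : ℕ} (Q : Set (E k)) (s t : E k) : Set (E k) :=
  {y | y ∈ polarDual Q ∧ inner ℝ s y = 1 ∧ inner ℝ t y = 1}

/-- The `d`-dimensional Euclidean volume of a subset of `ℝ^k`. -/
noncomputable def vol {k : ℕ} (d : ℕ) (F : Set (E k)) : ℝ :=
  (MeasureTheory.Measure.euclideanHausdorffMeasure d F).toReal

open Classical in
/-- The off-diagonal entries of Izmestiev's Colin de Verdiere matrix: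
`M_st = - vol_{k-2}(F_st) / (‖s‖ ‖t‖ sin θ_st)` if `{s,t}` is an edge, and `0` otherwise. -/
noncomputable def cdvEntry {k : ℕ} (Q : Set (E k)) (s t : E k) : ℝ :=
  if IsEdge Q s t then
    -(vol (k - 2) (dualFace Q s t) / (‖s‖ * ‖t‖ * Real.sin (InnerProductGeometry.angle s t)))
  else 0

/-- The random walk matrix `T(Q)`, indexed by the vertices of `Q`: `T_ss = 0` and
`T_st = -M_st / c` with `c = ∑_{u ≠ s} (-M_su)`.  (`cdvEntry Q s s = 0`, so the diagonal of `T(Q)`
is zero and the term `u = s` does not contribute to the sum.) -/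
noncomputable def walkMatrix {k : ℕ} (Q : Set (E k)) [Fintype (vertices Q)] :
    Matrix (vertices Q) (vertices Q) ℝ :=
  Matrix.of fun s t => -cdvEntry Q s t / ∑ u : vertices Q, -cdvEntry Q s u

open Classical in
/-- `λ₁`: the second entry of the decreasing list `λ₀ ≥ λ₁ ≥ ⋯` of the eigenvalues of `T(Q)`,
listed with multiplicity (as the real roots of the characteristic polynomial). -/
noncomputable def lambdaOne {k : ℕ} (Q : Set (E k)) : ℝ :=
  if h : (vertices Q).Finite then
    letI := h.fintype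
    (((walkMatrix Q).charpoly.roots).sort (· ≥ ·)).getD 1 0
  else 0

/-- Two polytopes have the same combinatorial type: their face lattices are isomorphic. -/
def SameType {k : ℕ} (Q Q' : Set (E k)) : Prop :=
  Nonempty ({F : Set (E k) // IsFace Q F} ≃o {F : Set (E k) // IsFace Q' F})

/-- The points `w` of the sphere of radius `r` for which `Q_w` is `k`-dimensional, that is, has
interior points. -/
def regularPoints {k : ℕ} (Γ : SubgroupO k) (r : ℝ) : Set (E k) :=
  {w | ‖w‖ = r ∧ (interior (orbitPolytope Γ w)).Nonempty}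

/-- The class of `w`: the regular points whose orbit polytope has the combinatorial type
of `Q_w`. -/
def typeClass {k : ℕ} (Γ : SubgroupO k) (r : ℝ) (w : E k) : Set (E k) :=
  {v | v ∈ regularPoints Γ r ∧ SameType (orbitPolytope Γ w) (orbitPolytope Γ v)}

/-- The stratum of `w`: the connected component of `w` in its class. -/
def stratum {k : ℕ} (Γ : SubgroupO k) (r : ℝ) (w : E k) : Set (E k) :=
  connectedComponentIn (typeClass Γ r w) w

/-- `S` is an embedded smooth submanifold of `ℝ^k`: for some `d`, near each of its points a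
smooth diffeomorphism between open sets carries `S` to a linear subspace of dimension `d`.
For a subset of a sphere this says that it is a submanifold of the sphere. -/
def IsSubmanifold {k : ℕ} (S : Set (E k)) : Prop :=
  ∃ d : ℕ, ∀ x ∈ S, ∃ (φ : OpenPartialHomeomorph (E k) (E k)) (W : Submodule ℝ (E k)),
    x ∈ φ.source ∧ ContDiffOn ℝ ∞ φ φ.source ∧ ContDiffOn ℝ ∞ φ.symm φ.target ∧
    Module.finrank ℝ W = d ∧ φ '' (S ∩ φ.source) = φ.target ∩ W

/-- `λ₁` as a function of `w`. -/
noncomputable def lambdaFun {k : ℕ} (Γ : SubgroupO k) (w : E k) : ℝ :=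
  lambdaOne (orbitPolytope Γ w)

/-- `v` is a global minimiser of `λ₁` over the set `S`. -/
def IsMinimiser {k : ℕ} (Γ : SubgroupO k) (S : Set (E k)) (v : E k) : Prop :=
  v ∈ S ∧ ∀ u ∈ S, lambdaFun Γ v ≤ lambdaFun Γ u

/-- Hypothesis (i): every stratum is a submanifold of the sphere. -/
def HypI {k : ℕ} (Γ : SubgroupO k) (r : ℝ) : Prop :=
  ∀ w ∈ regularPoints Γ r, IsSubmanifold (stratum Γ r w)

/-- Hypothesis (ii): on every stratum `λ₁` is continuous and attains a global minimum. -/
def HypII {k : ℕ} (Γ : SubgroupO k) (r : ℝ) : Prop :=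
  ∀ w ∈ regularPoints Γ r, ContinuousOn (lambdaFun Γ) (stratum Γ r w) ∧
    ∃ v, IsMinimiser Γ (stratum Γ r w) v

/-- A polytope is equilateral if all its edges have the same length. -/
def IsEquilateral {k : ℕ} (Q : Set (E k)) : Prop :=
  ∀ s t s' t' : E k, IsEdge Q s t → IsEdge Q s' t' → dist s t = dist s' t'

end Pool.Agent.Lib.MP_427d8c_co
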