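import Pool.Agent.Lib.MP_427d8c_co.Defs

/-!
# Spectral minima of orbit polytopes need not be equilateral: the proof

The binary dihedral group of order 12 acts irreducibly on `ℝ^4` (the quaternions) by left
multiplication.  Right multiplications commute with it and are transitive on every sphere, so all
orbit polytopes on a sphere are congruent: there is one stratum and `λ₁` is constant on it.  The
orbit polytope is the convex hull of two regular hexagons in orthogonal planes; it has edges of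
length `r` (sides of the hexagons) and `√2 r` (between the hexagons).
-/

set_option autoImplicit false

open scoped ContDiff
open Matrix Quaternion

namespace Pool.Agent.Lib.MP_427d8c_co

/-! ### Invariance under isometries -/

section Invariance

variable {k : ℕ} (R : E k ≃ₗᵢ[ℝ] E k)

lemma orbitPolytope_map (Γ : SubgroupO k) (hR : ∀ f ∈ maps Γ, ∀ x, f (R x) = R (f x))
    (w : E k) : orbitPolytope Γ (R w) = R '' orbitPolytope Γ w := by
  have h1 : orbit Γ (R w) = R '' orbit Γ w := by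
    ext x
    constructor
    · rintro ⟨g, hg, rfl⟩
      exact ⟨g w, ⟨g, hg, rfl⟩, (hR g hg w).symm⟩
    · rintro ⟨_, ⟨g, hg, rfl⟩, rfl⟩
      exact ⟨g, hg, hR g hg w⟩
  rw [orbitPolytope, orbitPolytope, h1]
  exact (LinearMap.image_convexHull R.toLinearEquiv.toLinearMap _).symm

lemma exposed_map {Q F : Set (E k)} (h : IsExposed ℝ Q F) : IsExposed ℝ (R '' Q) (R '' F) := by
  rintro ⟨_, x, hx, rfl⟩
  obtain ⟨l, hl⟩ := h ⟨x, hx⟩
  refine ⟨l.comp (R.symm.toContinuousLinearEquiv : E k →L[ℝ] E k), ?_⟩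
  rw [hl]
  ext y
  constructor
  · rintro ⟨y, ⟨hy, hy2⟩, rfl⟩
    refine ⟨⟨y, hy, rfl⟩, ?_⟩
    rintro _ ⟨z, hz, rfl⟩
    simpa using hy2 z hz
  · rintro ⟨⟨y, hy, rfl⟩, h2⟩
    refine ⟨y, ⟨hy, ?_⟩, rfl⟩
    intro z hz
    simpa using h2 (R z) ⟨z, hz, rfl⟩

lemma image_symm_image (A : Set (E k)) : R.symm '' (R '' A) = A := by
  rw [Set.image_image]; simp

lemma exposed_map_iff {Q F : Set (E k)} : IsExposed ℝ (R '' Q) (R '' F) ↔ IsExposed ℝ Q F := by
  refine ⟨fun h => ?_, exposed_map R⟩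
  have := exposed_map R.symm h
  rwa [image_symm_image, image_symm_image] at this

lemma sameType_map (Q : Set (E k)) : SameType Q (R '' Q) := by
  refine ⟨⟨⟨fun F => ⟨R '' F.1, exposed_map R F.2⟩,
    fun F => ⟨R.symm '' F.1, ?_⟩, ?_, ?_⟩, ?_⟩⟩
  · have := exposed_map R.symm F.2
    rwa [image_symm_image] at this
  · intro F
    exact Subtype.ext (image_symm_image R F.1)
  · intro F
    exact Subtype.ext (image_symm_image R.symm F.1)
  · intro F G
    exact Set.image_subset_image_iff R.injective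

lemma isEdge_map {Q : Set (E k)} {s t : E k} : IsEdge (R '' Q) (R s) (R t) ↔ IsEdge Q s t := by
  have : segment ℝ (R s) (R t) = R '' segment ℝ s t :=
    (image_segment ℝ R.toLinearEquiv.toLinearMap.toAffineMap s t).symm
  rw [IsEdge, IsEdge, this, IsFace, IsFace, exposed_map_iff, R.injective.ne_iff]

lemma polarDual_map (Q : Set (E k)) : polarDual (R '' Q) = R '' polarDual Q := by
  ext y
  constructor
  · intro hy
    refine ⟨R.symm y, ?_, by simp⟩
    intro x hx
    have := hy (R x) ⟨x, hx, rfl⟩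
    rwa [← R.inner_map_map, R.apply_symm_apply]
  · rintro ⟨y, hy, rfl⟩ _ ⟨x, hx, rfl⟩
    rw [R.inner_map_map]
    exact hy x hx

lemma dualFace_map (Q : Set (E k)) (s t : E k) :
    dualFace (R '' Q) (R s) (R t) = R '' dualFace Q s t := by
  ext y
  constructor
  · rintro ⟨hy, h1, h2⟩
    rw [polarDual_map] at hy
    obtain ⟨y, hy, rfl⟩ := hy
    rw [R.inner_map_map] at h1 h2
    exact ⟨y, ⟨hy, h1, h2⟩, rfl⟩
  · rintro ⟨y, ⟨hy, h1, h2⟩, rfl⟩
    refine ⟨?_, ?_, ?_⟩
    · rw [polarDual_map]; exact ⟨y, hy, rfl⟩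
    · rwa [R.inner_map_map]
    · rwa [R.inner_map_map]

lemma angle_map' (s t : E k) :
    InnerProductGeometry.angle (R s) (R t) = InnerProductGeometry.angle s t :=
  R.toLinearIsometry.angle_map s t

lemma vol_map (d : ℕ) (F : Set (E k)) : vol d (R '' F) = vol d F := by
  rw [vol, vol, R.isometry.euclideanHausdorffMeasure_image]

lemma cdvEntry_map (Q : Set (E k)) (s t : E k) :
    cdvEntry (R '' Q) (R s) (R t) = cdvEntry Q s t := by
  unfold cdvEntry
  rw [dualFace_map, vol_map, LinearIsometryEquiv.norm_map,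
    LinearIsometryEquiv.norm_map, angle_map']
  by_cases h : IsEdge Q s t
  · rw [if_pos h, if_pos ((isEdge_map R).2 h)]
  · rw [if_neg h, if_neg (fun h' => h ((isEdge_map R).1 h'))]

lemma vertices_map (Q : Set (E k)) : vertices (R '' Q) = R '' vertices Q :=
  (image_extremePoints R Q).symm

lemma lambdaOne_map (Q : Set (E k)) : lambdaOne (R '' Q) = lambdaOne Q := by
  classical
  have hV := vertices_map R Q
  unfold lambdaOne
  have hfin : (vertices (R '' Q)).Finite ↔ (vertices Q).Finite := by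
    rw [hV]; exact Set.finite_image_iff R.injective.injOn
  by_cases h : (vertices Q).Finite
  · have h' := hfin.2 h
    rw [dif_pos h, dif_pos h']
    let e : (vertices Q) ≃ (vertices (R '' Q)) :=
      (Equiv.Set.image R (vertices Q) R.injective).trans (Equiv.setCongr hV.symm)
    have he : ∀ s, ((e s : vertices (R '' Q)) : E k) = R s := fun s => rfl
    let _ := h.fintype
    let _ := h'.fintype
    have hM : walkMatrix (R '' Q) = Matrix.reindex e e (walkMatrix Q) := by
      ext s t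
      obtain ⟨s, rfl⟩ := e.surjective s
      obtain ⟨t, rfl⟩ := e.surjective t
      simp only [walkMatrix, Matrix.of_apply, Matrix.reindex_apply, Matrix.submatrix_apply,
        Equiv.symm_apply_apply, he, cdvEntry_map]
      congr 1
      rw [← e.sum_comp]
      refine Finset.sum_congr rfl fun u _ => ?_
      rw [he, cdvEntry_map]
    have := congrArg Matrix.charpoly hM
    rw [Matrix.charpoly_reindex] at this
    rw [this]
  · rw [dif_neg h, dif_neg (fun h' => h (hfin.1 h'))]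

end Invariance

/-! ### The sphere is a submanifold -/

section Sphere

variable {V : Type*} [NormedAddCommGroup V] [InnerProductSpace ℝ V]

/-- A chart of `V` near the point `x` of the sphere of radius `r`, flattening the sphere. -/
noncomputable def chartFun (x : V) (r : ℝ) (y : V) : V :=
  y + ((‖y‖ ^ 2 - r ^ 2) / (2 * r ^ 2) - inner ℝ x y / r ^ 2) • x

/-- An auxiliary function for the inverse chart. -/
noncomputable def chartDisc (x : V) (r : ℝ) (z : V) : ℝ :=
  1 + 2 * (inner ℝ x z / r ^ 2) - (‖z‖ ^ 2 - (inner ℝ x z) ^ 2 / r ^ 2) / r ^ 2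

/-- The inverse chart. -/
noncomputable def chartInv (x : V) (r : ℝ) (z : V) : V :=
  z + (Real.sqrt (chartDisc x r z) - inner ℝ x z / r ^ 2) • x

lemma inner_chartFun (x : V) (r : ℝ) (hr : 0 < r) (hx : ‖x‖ = r) (y : V) :
    inner ℝ x (chartFun x r y) = (‖y‖ ^ 2 - r ^ 2) / 2 := by
  rw [chartFun, inner_add_right, inner_smul_right, real_inner_self_eq_norm_sq, hx]
  field_simp
  ring

lemma norm_chartFun (x : V) (r : ℝ) (hr : 0 < r) (hx : ‖x‖ = r) (y : V) :
    ‖chartFun x r y‖ ^ 2 = ‖y‖ ^ 2 + ((‖y‖ ^ 2 - r ^ 2) ^ 2 / 4 - (inner ℝ x y) ^ 2) / r ^ 2 := by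
  rw [chartFun, norm_add_sq_real, inner_smul_right, norm_smul, mul_pow, hx, real_inner_comm y x, Real.norm_eq_abs, sq_abs]
  field_simp
  ring

lemma disc_chartFun (x : V) (r : ℝ) (hr : 0 < r) (hx : ‖x‖ = r) (y : V) :
    chartDisc x r (chartFun x r y) = (inner ℝ x y / r ^ 2) ^ 2 := by
  rw [chartDisc, inner_chartFun x r hr hx, norm_chartFun x r hr hx]
  field_simp
  ring

lemma inner_chartInv (x : V) (r : ℝ) (hr : 0 < r) (hx : ‖x‖ = r) (z : V) :
    inner ℝ x (chartInv x r z) = Real.sqrt (chartDisc x r z) * r ^ 2 := by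
  rw [chartInv, inner_add_right, inner_smul_right, real_inner_self_eq_norm_sq, hx]
  field_simp
  ring

lemma norm_chartInv (x : V) (r : ℝ) (hr : 0 < r) (hx : ‖x‖ = r) (z : V) (hz : 0 < chartDisc x r z) :
    ‖chartInv x r z‖ ^ 2 = r ^ 2 + 2 * inner ℝ x z := by
  have h1 : Real.sqrt (chartDisc x r z) ^ 2 = chartDisc x r z := Real.sq_sqrt hz.le
  rw [chartInv, norm_add_sq_real, inner_smul_right, norm_smul, mul_pow, hx, Real.norm_eq_abs, sq_abs,
    real_inner_comm x z]
  generalize Real.sqrt (chartDisc x r z) = D at h1 ⊢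
  rw [chartDisc] at h1
  generalize inner ℝ x z = c at h1 ⊢
  have key : (D - c / r ^ 2) ^ 2 * r ^ 2 = D ^ 2 * r ^ 2 - 2 * D * c + c ^ 2 / r ^ 2 := by
    field_simp
    ring
  rw [key, h1]
  field_simp
  ring

/-- The chart as an open partial homeomorphism. -/
noncomputable def sphereChart (x : V) (r : ℝ) (hr : 0 < r) (hx : ‖x‖ = r) : OpenPartialHomeomorph V V where
  toFun := chartFun x r
  invFun := chartInv x r
  source := {y | 0 < inner ℝ x y}
  target := {z | 0 < chartDisc x r z}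
  map_source' := by
    intro y hy
    simp only [Set.mem_ofPred_eq] at hy ⊢
    rw [disc_chartFun x r hr hx]
    positivity
  map_target' := by
    intro z hz
    simp only [Set.mem_ofPred_eq] at hz ⊢
    rw [inner_chartInv x r hr hx]
    have := Real.sqrt_pos.2 hz
    positivity
  left_inv' := by
    intro y hy
    simp only [Set.mem_ofPred_eq] at hy
    rw [chartInv, disc_chartFun x r hr hx, inner_chartFun x r hr hx, Real.sqrt_sq (by positivity), chartFun, add_assoc, ← add_smul]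
    convert add_zero y
    convert zero_smul ℝ x
    field_simp
    ring
  right_inv' := by
    intro z hz
    simp only [Set.mem_ofPred_eq] at hz
    rw [chartFun, norm_chartInv x r hr hx z hz, inner_chartInv x r hr hx, chartInv, add_assoc, ← add_smul]
    convert add_zero z
    convert zero_smul ℝ x
    field_simp
    ring
  open_source := isOpen_lt continuous_const (by fun_prop)
  open_target := isOpen_lt continuous_const (by unfold chartDisc; fun_prop)
  continuousOn_toFun := by unfold chartFun; fun_prop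
  continuousOn_invFun := by unfold chartInv chartDisc; fun_prop

lemma contDiff_chartFun (x : V) (r : ℝ) : ContDiff ℝ ∞ (chartFun x r) := by
  unfold chartFun
  have h1 : ContDiff ℝ ∞ (fun y : V => ‖y‖ ^ 2) := contDiff_norm_sq ℝ
  have h2 : ContDiff ℝ ∞ (fun y : V => inner ℝ x y) := contDiff_const.inner ℝ contDiff_id
  fun_prop

lemma contDiff_chartDisc (x : V) (r : ℝ) : ContDiff ℝ ∞ (chartDisc x r) := by
  unfold chartDisc
  have h1 : ContDiff ℝ ∞ (fun y : V => ‖y‖ ^ 2) := contDiff_norm_sq ℝ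
  have h2 : ContDiff ℝ ∞ (fun y : V => inner ℝ x y) := contDiff_const.inner ℝ contDiff_id
  fun_prop

lemma contDiffOn_chartInv (x : V) (r : ℝ) : ContDiffOn ℝ ∞ (chartInv x r) {z | 0 < chartDisc x r z} := by
  unfold chartInv
  have h2 : ContDiff ℝ ∞ (fun y : V => inner ℝ x y) := contDiff_const.inner ℝ contDiff_id
  have h3 : ContDiffOn ℝ ∞ (fun z => Real.sqrt (chartDisc x r z)) {z | 0 < chartDisc x r z} :=
    (contDiff_chartDisc x r).contDiffOn.sqrt (fun z hz => (ne_of_gt hz))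
  exact contDiffOn_id.add ((h3.sub (h2.contDiffOn.div_const _)).smul contDiffOn_const)

end Sphere

/-! ### The binary dihedral group -/

/-- the identification of the quaternions with ℝ^4 -/
noncomputable abbrev Φ : ℍ[ℝ] ≃ₗᵢ[ℝ] E 4 := Quaternion.linearIsometryEquivTuple

/-- The quaternion `z` for a complex number `z`. -/
def qa (z : ℂ) : ℍ[ℝ] := ⟨z.re, z.im, 0, 0⟩
/-- The quaternion `z j` for a complex number `z`. -/
def qb (z : ℂ) : ℍ[ℝ] := ⟨0, 0, z.re, z.im⟩

@[simp] lemma qa_re (z : ℂ) : (qa z).re = z.re := rfl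
@[simp] lemma qa_imI (z : ℂ) : (qa z).imI = z.im := rfl
@[simp] lemma qa_imJ (z : ℂ) : (qa z).imJ = 0 := rfl
@[simp] lemma qa_imK (z : ℂ) : (qa z).imK = 0 := rfl
@[simp] lemma qb_re (z : ℂ) : (qb z).re = 0 := rfl
@[simp] lemma qb_imI (z : ℂ) : (qb z).imI = 0 := rfl
@[simp] lemma qb_imJ (z : ℂ) : (qb z).imJ = z.re := rfl
@[simp] lemma qb_imK (z : ℂ) : (qb z).imK = z.im := rfl

lemma qa_mul_qa (z w : ℂ) : qa z * qa w = qa (z * w) := by
  ext <;> simp [Quaternion.re_mul, Quaternion.imI_mul, Quaternion.imJ_mul, Quaternion.imK_mul]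
lemma qa_mul_qb (z w : ℂ) : qa z * qb w = qb (z * w) := by
  ext <;> simp [Quaternion.re_mul, Quaternion.imI_mul, Quaternion.imJ_mul, Quaternion.imK_mul]
lemma qb_mul_qa (z w : ℂ) : qb z * qa w = qb (z * (starRingEnd ℂ) w) := by
  ext <;> simp [Quaternion.re_mul, Quaternion.imI_mul, Quaternion.imJ_mul, Quaternion.imK_mul]
lemma qb_mul_qb (z w : ℂ) : qb z * qb w = qa (-(z * (starRingEnd ℂ) w)) := by
  ext <;> simp [Quaternion.re_mul, Quaternion.imI_mul, Quaternion.imJ_mul, Quaternion.imK_mul] <;> ring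

/-- the binary dihedral group of order 12: `z` and `z j` for the sixth roots of unity `z` -/
def IsDic (q : ℍ[ℝ]) : Prop := ∃ z : ℂ, z ^ 6 = 1 ∧ (q = qa z ∨ q = qb z)

lemma isDic_one : IsDic 1 := ⟨1, by norm_num, Or.inl (by ext <;> simp)⟩

lemma isDic_mul {p q : ℍ[ℝ]} (hp : IsDic p) (hq : IsDic q) : IsDic (p * q) := by
  obtain ⟨z, hz, rfl | rfl⟩ := hp <;> obtain ⟨w, hw, rfl | rfl⟩ := hq
  · exact ⟨z * w, by rw [mul_pow, hz, hw, one_mul], Or.inl (qa_mul_qa z w)⟩
  · exact ⟨z * w, by rw [mul_pow, hz, hw, one_mul], Or.inr (qa_mul_qb z w)⟩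
  · refine ⟨z * (starRingEnd ℂ) w, ?_, Or.inr (qb_mul_qa z w)⟩
    rw [mul_pow, hz, ← map_pow, hw, map_one, one_mul]
  · refine ⟨-(z * (starRingEnd ℂ) w), ?_, Or.inl (qb_mul_qb z w)⟩
    rw [neg_pow, mul_pow, hz, ← map_pow, hw, map_one, one_mul]
    norm_num

lemma norm_of_root {z : ℂ} (hz : z ^ 6 = 1) : ‖z‖ = 1 := Complex.norm_eq_one_of_pow_eq_one hz (by norm_num)

lemma normSq_of_root {z : ℂ} (hz : z ^ 6 = 1) : z.re ^ 2 + z.im ^ 2 = 1 := by
  have h := norm_of_root hz
  have : Complex.normSq z = 1 := by rw [Complex.normSq_eq_norm_sq, h]; norm_num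
  rw [Complex.normSq_apply] at this
  nlinarith

lemma norm_isDic {q : ℍ[ℝ]} (hq : IsDic q) : ‖q‖ = 1 := by
  have h2 : ‖q‖ * ‖q‖ = 1 := by
    rw [← Quaternion.normSq_eq_norm_mul_self, Quaternion.normSq_def']
    obtain ⟨z, hz, rfl | rfl⟩ := hq
    · simp; exact normSq_of_root hz
    · simp; exact normSq_of_root hz
  nlinarith [norm_nonneg q]

lemma isDic_inv {q : ℍ[ℝ]} (hq : IsDic q) : IsDic q⁻¹ := by
  obtain ⟨z, hz, rfl | rfl⟩ := hq
  · refine ⟨(starRingEnd ℂ) z, by rw [← map_pow, hz, map_one], Or.inl ?_⟩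
    rw [inv_eq_iff_eq_inv]
    apply eq_inv_of_mul_eq_one_left
    rw [qa_mul_qa]
    have := normSq_of_root hz
    ext <;> simp <;> nlinarith
  · refine ⟨-z, by rw [neg_pow, hz]; norm_num, Or.inr ?_⟩
    rw [inv_eq_iff_eq_inv]
    apply eq_inv_of_mul_eq_one_left
    rw [qb_mul_qb]
    have := normSq_of_root hz
    ext <;> simp <;> nlinarith

/-- left multiplication by a unit quaternion on `ℝ^4` -/
noncomputable def leftMul (q : ℍ[ℝ]) (hq : ‖q‖ = 1) : E 4 ≃ₗᵢ[ℝ] E 4 :=
  LinearIsometry.toLinearIsometryEquiv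
    { toFun := fun x => Φ (q * Φ.symm x)
      map_add' := fun x y => by rw [map_add, mul_add, map_add]
      map_smul' := fun c x => by rw [map_smul, mul_smul_comm, map_smul, RingHom.id_apply]
      norm_map' := fun x => by
        change ‖Φ (q * Φ.symm x)‖ = ‖x‖
        rw [LinearIsometryEquiv.norm_map, norm_mul, hq, one_mul, LinearIsometryEquiv.norm_map] } rfl

/-- right multiplication by a unit quaternion on `ℝ^4` -/
noncomputable def rightMul (q : ℍ[ℝ]) (hq : ‖q‖ = 1) : E 4 ≃ₗᵢ[ℝ] E 4 :=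
  LinearIsometry.toLinearIsometryEquiv
    { toFun := fun x => Φ (Φ.symm x * q)
      map_add' := fun x y => by rw [map_add, add_mul, map_add]
      map_smul' := fun c x => by rw [map_smul, smul_mul_assoc, map_smul, RingHom.id_apply]
      norm_map' := fun x => by
        change ‖Φ (Φ.symm x * q)‖ = ‖x‖
        rw [LinearIsometryEquiv.norm_map, norm_mul, hq, mul_one, LinearIsometryEquiv.norm_map] } rfl

lemma leftMul_apply (q : ℍ[ℝ]) (hq : ‖q‖ = 1) (x : E 4) : leftMul q hq x = Φ (q * Φ.symm x) := rfl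
lemma rightMul_apply (q : ℍ[ℝ]) (hq : ‖q‖ = 1) (x : E 4) : rightMul q hq x = Φ (Φ.symm x * q) := rfl

/-- The group `Γ` : left multiplications by the elements of the binary dihedral group. -/
noncomputable def Dic : SubgroupO 4 where
  carrier := {g | ∃ q : ℍ[ℝ], IsDic q ∧ ∀ x, g x = Φ (q * Φ.symm x)}
  mul_mem' := by
    rintro g h ⟨p, hp, hg⟩ ⟨q, hq, hh⟩
    refine ⟨p * q, isDic_mul hp hq, fun x => ?_⟩
    change g (h x) = _
    rw [hg, hh, LinearIsometryEquiv.symm_apply_apply, mul_assoc]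
  one_mem' := ⟨1, isDic_one, fun x => by rw [one_mul, LinearIsometryEquiv.apply_symm_apply]; rfl⟩
  inv_mem' := by
    rintro g ⟨q, hq, hg⟩
    refine ⟨q⁻¹, isDic_inv hq, fun x => ?_⟩
    have hq0 : q ≠ 0 := by
      have := norm_isDic hq
      intro h; rw [h, norm_zero] at this; norm_num at this
    apply g.injective
    rw [hg (Φ (q⁻¹ * Φ.symm x)), LinearIsometryEquiv.symm_apply_apply, ← mul_assoc, mul_inv_cancel₀ hq0, one_mul, LinearIsometryEquiv.apply_symm_apply]
    exact LinearIsometryEquiv.apply_symm_apply g x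

lemma leftMul_mem {q : ℍ[ℝ]} (hq : IsDic q) : leftMul q (norm_isDic hq) ∈ Dic := ⟨q, hq, fun _ => rfl⟩

lemma mem_maps {f : E 4 → E 4} :
    f ∈ maps Dic ↔ ∃ q : ℍ[ℝ], IsDic q ∧ ∀ x, f x = Φ (q * Φ.symm x) := by
  constructor
  · rintro ⟨g, ⟨q, hq, hg⟩, hf⟩
    exact ⟨q, hq, fun x => by rw [hf, hg]⟩
  · rintro ⟨q, hq, hf⟩
    exact ⟨leftMul q (norm_isDic hq), leftMul_mem hq, fun x => by rw [hf, leftMul_apply]⟩

lemma finite_Dic : (maps Dic).Finite := by
  have h1 : {z : ℂ | z ^ 6 = 1}.Finite := by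
    have : {z : ℂ | z ^ 6 = 1} = ((Polynomial.nthRoots 6 (1:ℂ)).toFinset : Set ℂ) := by
      ext z
      simp [Polynomial.mem_nthRoots]
    rw [this]
    exact Finset.finite_toSet _
  have h2 : {q : ℍ[ℝ] | IsDic q}.Finite := by
    refine ((h1.image qa).union (h1.image qb)).subset ?_
    rintro q ⟨z, hz, rfl | rfl⟩
    · exact Or.inl ⟨z, hz, rfl⟩
    · exact Or.inr ⟨z, hz, rfl⟩
  refine (h2.image (fun q => fun x => Φ (q * Φ.symm x))).subset ?_
  intro f hf
  obtain ⟨q, hq, h⟩ := mem_maps.1 hf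
  exact ⟨q, hq, funext fun x => (h x).symm⟩

lemma orbit_eq (w : E 4) : orbit Dic w = {x | ∃ q : ℍ[ℝ], IsDic q ∧ Φ (q * Φ.symm w) = x} := by
  ext x
  constructor
  · rintro ⟨f, hf, rfl⟩
    obtain ⟨q, hq, h⟩ := mem_maps.1 hf
    exact ⟨q, hq, (h w).symm⟩
  · rintro ⟨q, hq, rfl⟩
    exact ⟨fun x => Φ (q * Φ.symm x), mem_maps.2 ⟨q, hq, fun x => rfl⟩, rfl⟩

lemma rightMul_commutes (q : ℍ[ℝ]) (hq : ‖q‖ = 1) :
    ∀ f ∈ maps Dic, ∀ x, f (rightMul q hq x) = rightMul q hq (f x) := by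
  intro f hf x
  obtain ⟨p, hp, h⟩ := mem_maps.1 hf
  rw [h, h, rightMul_apply, rightMul_apply, LinearIsometryEquiv.symm_apply_apply,
    LinearIsometryEquiv.symm_apply_apply, mul_assoc]

/-- The centralizer of `Γ` is transitive on spheres. -/
lemma exists_rightMul {v w : E 4} {r : ℝ} (hr : 0 < r) (hv : ‖v‖ = r) (hw : ‖w‖ = r) :
    ∃ (q : ℍ[ℝ]) (hq : ‖q‖ = 1), rightMul q hq v = w := by
  have hv0 : Φ.symm v ≠ 0 := by
    intro h
    have := congrArg norm h
    rw [LinearIsometryEquiv.norm_map, norm_zero, hv] at this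
    exact hr.ne' this
  refine ⟨(Φ.symm v)⁻¹ * Φ.symm w, ?_, ?_⟩
  · rw [norm_mul, norm_inv, LinearIsometryEquiv.norm_map, LinearIsometryEquiv.norm_map, hv, hw,
      inv_mul_cancel₀ hr.ne']
  · rw [rightMul_apply, ← mul_assoc, mul_inv_cancel₀ hv0, one_mul,
      LinearIsometryEquiv.apply_symm_apply]

/-- `a = e^{iπ/3}` -/
noncomputable def ωa : ℂ := ⟨1/2, Real.sqrt 3 / 2⟩

lemma ωa_pow : ωa ^ 6 = 1 := by
  have h3 : Real.sqrt 3 * Real.sqrt 3 = 3 := Real.mul_self_sqrt (by norm_num)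
  have h1 : ωa ^ 2 = ωa - 1 := by
    apply Complex.ext
    · simp [ωa, sq]; nlinarith
    · simp [ωa, sq]; nlinarith
  have h2 : ωa ^ 3 = -1 := by linear_combination (ωa + 1) * h1
  calc ωa ^ 6 = (ωa ^ 3) ^ 2 := by ring
    _ = 1 := by rw [h2]; norm_num

/-- The sixth roots of unity. -/
lemma roots {z : ℂ} (hz : z ^ 6 = 1) : (z.re = 1 ∧ z.im = 0) ∨ (z.re = -1 ∧ z.im = 0) ∨
    (z.re = 1/2 ∧ z.im = Real.sqrt 3 / 2) ∨ (z.re = 1/2 ∧ z.im = -(Real.sqrt 3 / 2)) ∨
    (z.re = -1/2 ∧ z.im = Real.sqrt 3 / 2) ∨ (z.re = -1/2 ∧ z.im = -(Real.sqrt 3 / 2)) := by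
  have h3 : Real.sqrt 3 * Real.sqrt 3 = 3 := Real.mul_self_sqrt (by norm_num)
  have hfac : (z - 1) * ((z + 1) * ((z ^ 2 + z + 1) * (z ^ 2 - z + 1))) = 0 := by
    linear_combination hz
  have hsq : ∀ y : ℝ, y ^ 2 = 3 / 4 → y = Real.sqrt 3 / 2 ∨ y = -(Real.sqrt 3 / 2) := by
    intro y hy
    have : (y - Real.sqrt 3 / 2) * (y + Real.sqrt 3 / 2) = 0 := by nlinarith
    rcases mul_eq_zero.1 this with h | h
    · left; linarith
    · right; linarith
  rcases mul_eq_zero.1 hfac with h | h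
  · left
    have : z = 1 := by linear_combination h
    simp [this]
  rcases mul_eq_zero.1 h with h | h
  · right; left
    have : z = -1 := by linear_combination h
    simp [this]
  rcases mul_eq_zero.1 h with h | h
  · have hre := congrArg Complex.re h
    have him := congrArg Complex.im h
    simp [sq] at hre him
    have h5 : z.im * (2 * z.re + 1) = 0 := by linarith
    rcases mul_eq_zero.1 h5 with h6 | h6
    · exfalso; rw [h6] at hre; nlinarith [sq_nonneg (z.re + 1/2)]
    · have h7 : z.re = -1/2 := by linarith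
      rw [h7] at hre
      rcases hsq z.im (by nlinarith) with h8 | h8
      · right; right; right; right; left; exact ⟨h7, h8⟩
      · right; right; right; right; right; exact ⟨h7, h8⟩
  · have hre := congrArg Complex.re h
    have him := congrArg Complex.im h
    simp [sq] at hre him
    have h5 : z.im * (2 * z.re - 1) = 0 := by linarith
    rcases mul_eq_zero.1 h5 with h6 | h6
    · exfalso; rw [h6] at hre; nlinarith [sq_nonneg (z.re - 1/2)]
    · have h7 : z.re = 1/2 := by linarith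
      rw [h7] at hre
      rcases hsq z.im (by nlinarith) with h8 | h8
      · right; right; left; exact ⟨h7, h8⟩
      · right; right; right; left; exact ⟨h7, h8⟩

/-- A linear functional on a set of points with exactly two maximisers exposes an edge. -/
lemma exposed_segment {k : ℕ} (P : Set (E k)) (s t : E k) (hs : s ∈ P) (ht : t ∈ P)
    (l : StrongDual ℝ (E k)) (M : ℝ) (hls : l s = M) (hlt : l t = M)
    (hP : ∀ p ∈ P, p = s ∨ p = t ∨ l p < M) : IsExposed ℝ (convexHull ℝ P) (segment ℝ s t) := by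
  intro _
  refine ⟨l, ?_⟩
  have hle : ∀ y ∈ convexHull ℝ P, l y ≤ M := by
    have hconv : Convex ℝ {y | l y ≤ M} := convex_halfSpace_le l.toLinearMap.isLinear M
    refine fun y hy => convexHull_min ?_ hconv hy
    intro p hp
    rcases hP p hp with rfl | rfl | h
    · exact hls.le
    · exact hlt.le
    · exact h.le
  have hseg : ∀ y ∈ segment ℝ s t, l y = M := by
    rintro y ⟨a, b, ha, hb, hab, rfl⟩
    rw [map_add, map_smul, map_smul, hls, hlt, ← add_smul, hab, one_smul]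
  apply Set.Subset.antisymm
  · intro y hy
    refine ⟨segment_subset_convexHull hs ht hy, ?_⟩
    intro z hz
    rw [hseg y hy]
    exact hle z hz
  · rintro y ⟨hy, hmax⟩
    have hyM : l y = M := le_antisymm (hle y hy) (by rw [← hls]; exact hmax s (subset_convexHull ℝ P hs))
    by_cases hne : {p ∈ P | l p < M}.Nonempty
    · have hsub : P ⊆ {s, t} ∪ {p ∈ P | l p < M} := by
        intro p hp
        rcases hP p hp with rfl | rfl | h
        · exact Or.inl (Or.inl rfl)
        · exact Or.inl (Or.inr rfl)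
        · exact Or.inr ⟨hp, h⟩
      have hy2 := convexHull_mono hsub hy
      rw [convexHull_union ⟨s, Or.inl rfl⟩ hne, mem_convexJoin, ] at hy2
      obtain ⟨u, hu, v, hv, hyuv⟩ := hy2
      rw [convexHull_pair] at hu
      have hv2 : l v < M := by
        have hconv : Convex ℝ {y | l y < M} := convex_halfSpace_lt l.toLinearMap.isLinear M
        exact convexHull_min (fun p hp => hp.2) hconv hv
      obtain ⟨a, b, ha, hb, hab, rfl⟩ := hyuv
      rw [map_add, map_smul, map_smul, hseg u hu, smul_eq_mul, smul_eq_mul] at hyM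
      have hb0 : b = 0 := by
        by_contra hb0
        have : 0 < b := lt_of_le_of_ne hb (Ne.symm hb0)
        have ha' : a = 1 - b := by linarith
        rw [ha'] at hyM
        nlinarith
      have ha1 : a = 1 := by linarith
      rw [hb0, ha1, one_smul, zero_smul, add_zero]
      exact hu
    · have hsub : P ⊆ {s, t} := by
        intro p hp
        rcases hP p hp with rfl | rfl | h
        · exact Or.inl rfl
        · exact Or.inr rfl
        · exact absurd ⟨p, hp, h⟩ hne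
      have hy2 := convexHull_mono hsub hy
      rwa [convexHull_pair] at hy2

lemma inner_Φ (v : ℍ[ℝ]) (p q : ℍ[ℝ]) : inner ℝ (Φ (p * v)) (Φ (q * v)) = ‖v‖ ^ 2 * (p * star q).re := by
  rw [LinearIsometryEquiv.inner_map_map, Quaternion.inner_def, star_mul]
  have : p * v * (star v * star q) = p * (v * star v) * star q := by noncomm_ring
  rw [this, Quaternion.self_mul_star, Quaternion.normSq_eq_norm_mul_self]
  rw [← Quaternion.coe_commutes, mul_assoc, Quaternion.coe_mul_eq_smul, Quaternion.re_smul, smul_eq_mul]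
  ring


lemma qa_one : qa 1 = 1 := by ext <;> simp

/-- A criterion for edges of the orbit polytope. -/
lemma edge_of {v : ℍ[ℝ]} (hv : v ≠ 0) (q₁ q₂ : ℍ[ℝ]) (h₁ : IsDic q₁) (h₂ : IsDic q₂) (hne : q₁ ≠ q₂)
    (h : ∀ q, IsDic q → q = q₁ ∨ q = q₂ ∨
      (q * star q₁).re + (q * star q₂).re < 1 + (q₁ * star q₂).re) :
    IsEdge (orbitPolytope Dic (Φ v)) (Φ (q₁ * v)) (Φ (q₂ * v)) := by
  have hv0 : 0 < ‖v‖ ^ 2 := by positivity
  constructor
  · intro h
    exact hne (mul_right_cancel₀ hv (Φ.injective h))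
  · rw [orbitPolytope, orbit_eq, LinearIsometryEquiv.symm_apply_apply]
    have hself : ∀ q, IsDic q → (q * star q).re = 1 := by
      intro q hq
      rw [Quaternion.self_mul_star, Quaternion.normSq_eq_norm_mul_self, norm_isDic hq]
      simp
    have hcomm : (q₂ * star q₁).re = (q₁ * star q₂).re := by
      have : q₂ * star q₁ = star (q₁ * star q₂) := by rw [star_mul, star_star]
      rw [this, Quaternion.re_star]
    refine exposed_segment _ _ _ ⟨q₁, h₁, rfl⟩ ⟨q₂, h₂, rfl⟩
      (innerSL ℝ (Φ (q₁ * v) + Φ (q₂ * v))) (‖v‖ ^ 2 * (1 + (q₁ * star q₂).re)) ?_ ?_ ?_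
    · rw [innerSL_apply_apply, real_inner_comm, inner_add_right, inner_Φ, inner_Φ, hself q₁ h₁]
      ring
    · rw [innerSL_apply_apply, real_inner_comm, inner_add_right, inner_Φ, inner_Φ, hself q₂ h₂, hcomm]
      ring
    · rintro _ ⟨q, hq, rfl⟩
      rcases h q hq with rfl | rfl | h3
      · exact Or.inl rfl
      · exact Or.inr (Or.inl rfl)
      · right; right
        rw [innerSL_apply_apply, real_inner_comm, inner_add_right, inner_Φ, inner_Φ, ← mul_add]
        exact mul_lt_mul_of_pos_left h3 hv0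

lemma edge_long {v : ℍ[ℝ]} (hv : v ≠ 0) :
    IsEdge (orbitPolytope Dic (Φ v)) (Φ (qa 1 * v)) (Φ (qb 1 * v)) := by
  refine edge_of hv _ _ ⟨1, by norm_num, Or.inl rfl⟩ ⟨1, by norm_num, Or.inr rfl⟩ ?_ ?_
  · intro h
    have := congrArg QuaternionAlgebra.re h
    simp at this
  · rintro q ⟨z, hz, rfl | rfl⟩
    · rcases roots hz with h | h | h | h | h | h
      · left
        have : z = 1 := Complex.ext (by simp [h.1]) (by simp [h.2])
        rw [this]
      all_goals
        right; right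
        simp [Quaternion.re_mul, h.1, h.2] <;> norm_num
    · rcases roots hz with h | h | h | h | h | h
      · right; left
        have : z = 1 := Complex.ext (by simp [h.1]) (by simp [h.2])
        rw [this]
      all_goals
        right; right
        simp [Quaternion.re_mul, h.1, h.2] <;> norm_num

lemma edge_short {v : ℍ[ℝ]} (hv : v ≠ 0) :
    IsEdge (orbitPolytope Dic (Φ v)) (Φ (qa 1 * v)) (Φ (qa ωa * v)) := by
  have h3 : Real.sqrt 3 * Real.sqrt 3 = 3 := Real.mul_self_sqrt (by norm_num)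
  have hs3 : 0 < Real.sqrt 3 := Real.sqrt_pos.2 (by norm_num)
  refine edge_of hv _ _ ⟨1, by norm_num, Or.inl rfl⟩ ⟨ωa, ωa_pow, Or.inl rfl⟩ ?_ ?_
  · intro h
    have := congrArg QuaternionAlgebra.re h
    simp [ωa] at this
  · rintro q ⟨z, hz, rfl | rfl⟩
    · rcases roots hz with h | h | h | h | h | h
      · left
        have : z = 1 := Complex.ext (by simp [h.1]) (by simp [h.2])
        rw [this]
      · right; right
        simp [Quaternion.re_mul, h.1, h.2, ωa]
        norm_num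
      · right; left
        have : z = ωa := Complex.ext (by simp [h.1, ωa]) (by simp [h.2, ωa])
        rw [this]
      all_goals
        right; right
        simp [Quaternion.re_mul, h.1, h.2, ωa]
        nlinarith
    · right; right
      simp [Quaternion.re_mul, ωa]
      norm_num

lemma dist_long (v : ℍ[ℝ]) : dist (Φ (qa 1 * v)) (Φ (qb 1 * v)) ^ 2 = 2 * ‖v‖ ^ 2 := by
  rw [LinearIsometryEquiv.dist_map, dist_eq_norm, ← sub_mul, norm_mul, mul_pow]
  have : ‖qa 1 - qb 1‖ ^ 2 = 2 := by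
    rw [sq, ← Quaternion.normSq_eq_norm_mul_self, Quaternion.normSq_def']
    simp
    norm_num
  rw [this]

lemma dist_short (v : ℍ[ℝ]) : dist (Φ (qa 1 * v)) (Φ (qa ωa * v)) ^ 2 = ‖v‖ ^ 2 := by
  have h3 : Real.sqrt 3 * Real.sqrt 3 = 3 := Real.mul_self_sqrt (by norm_num)
  rw [LinearIsometryEquiv.dist_map, dist_eq_norm, ← sub_mul, norm_mul, mul_pow]
  have : ‖qa 1 - qa ωa‖ ^ 2 = 1 := by
    rw [sq, ← Quaternion.normSq_eq_norm_mul_self, Quaternion.normSq_def']
    simp [ωa]
    nlinarith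
  rw [this, one_mul]

/-- `1, a, j, a j` generate the quaternions over the reals. -/
lemma decomp (v y : ℍ[ℝ]) (hv : v ≠ 0) : ∃ c₁ c₂ c₃ c₄ : ℝ,
    y = c₁ • (qa 1 * v) + c₂ • (qa ωa * v) + c₃ • (qb 1 * v) + c₄ • (qb ωa * v) := by
  have h3 : Real.sqrt 3 * Real.sqrt 3 = 3 := Real.mul_self_sqrt (by norm_num)
  have hs3 : Real.sqrt 3 ≠ 0 := (Real.sqrt_pos.2 (by norm_num)).ne'
  obtain ⟨q, hq⟩ : ∃ q, q = y * v⁻¹ := ⟨_, rfl⟩
  have hy : y = q * v := by rw [hq, mul_assoc, inv_mul_cancel₀ hv, mul_one]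
  refine ⟨q.re - q.imI / Real.sqrt 3, 2 * q.imI / Real.sqrt 3, q.imJ - q.imK / Real.sqrt 3,
    2 * q.imK / Real.sqrt 3, ?_⟩
  rw [hy, ← smul_mul_assoc, ← smul_mul_assoc, ← smul_mul_assoc, ← smul_mul_assoc, ← add_mul,
    ← add_mul, ← add_mul]
  congr 1
  ext <;> simp [ωa] <;> field_simp <;> ring


lemma regular_eq {r : ℝ} (hr : 0 < r) : regularPoints Dic r = Metric.sphere 0 r := by
  ext w
  simp only [regularPoints, Set.mem_ofPred_eq, mem_sphere_zero_iff_norm]
  refine ⟨fun h => h.1, fun h => ⟨h, ?_⟩⟩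
  have hv : Φ.symm w ≠ 0 := by
    intro h0
    have := congrArg norm h0
    rw [LinearIsometryEquiv.norm_map, norm_zero, h] at this
    exact hr.ne' this
  rw [orbitPolytope, interior_convexHull_nonempty_iff_affineSpan_eq_top, orbit_eq]
  have hne : {x | ∃ q : ℍ[ℝ], IsDic q ∧ Φ (q * Φ.symm w) = x}.Nonempty :=
    ⟨_, 1, isDic_one, rfl⟩
  rw [AffineSubspace.affineSpan_eq_top_iff_vectorSpan_eq_top_of_nonempty ℝ _ _ hne]
  rw [eq_top_iff]
  intro x _
  have hmem : ∀ z : ℂ, z ^ 6 = 1 → Φ (qa z * Φ.symm w) ∈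
      vectorSpan ℝ {x | ∃ q : ℍ[ℝ], IsDic q ∧ Φ (q * Φ.symm w) = x} ∧ Φ (qb z * Φ.symm w) ∈
      vectorSpan ℝ {x | ∃ q : ℍ[ℝ], IsDic q ∧ Φ (q * Φ.symm w) = x} := by
    intro z hz
    have hz' : (-z) ^ 6 = 1 := by rw [neg_pow, hz]; norm_num
    have e1 : qa (-z) = -qa z := by ext <;> simp
    have e2 : qb (-z) = -qb z := by ext <;> simp
    constructor
    · have h1 := vsub_mem_vectorSpan ℝ (s := {x | ∃ q : ℍ[ℝ], IsDic q ∧ Φ (q * Φ.symm w) = x})
        ⟨qa z, ⟨z, hz, Or.inl rfl⟩, rfl⟩ ⟨qa (-z), ⟨-z, hz', Or.inl rfl⟩, rfl⟩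
      rw [e1, neg_mul, map_neg, vsub_eq_sub, sub_neg_eq_add, ← two_smul ℝ] at h1
      have h2 := Submodule.smul_mem _ (1/2 : ℝ) h1
      rwa [smul_smul, one_div, inv_mul_cancel₀ (by norm_num : (2:ℝ) ≠ 0), one_smul] at h2
    · have h1 := vsub_mem_vectorSpan ℝ (s := {x | ∃ q : ℍ[ℝ], IsDic q ∧ Φ (q * Φ.symm w) = x})
        ⟨qb z, ⟨z, hz, Or.inr rfl⟩, rfl⟩ ⟨qb (-z), ⟨-z, hz', Or.inr rfl⟩, rfl⟩
      rw [e2, neg_mul, map_neg, vsub_eq_sub, sub_neg_eq_add, ← two_smul ℝ] at h1
      have h2 := Submodule.smul_mem _ (1/2 : ℝ) h1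
      rwa [smul_smul, one_div, inv_mul_cancel₀ (by norm_num : (2:ℝ) ≠ 0), one_smul] at h2
  obtain ⟨c₁, c₂, c₃, c₄, h5⟩ := decomp (Φ.symm w) (Φ.symm x) hv
  have hx : x = c₁ • Φ (qa 1 * Φ.symm w) + c₂ • Φ (qa ωa * Φ.symm w) +
      c₃ • Φ (qb 1 * Φ.symm w) + c₄ • Φ (qb ωa * Φ.symm w) := by
    rw [← map_smul, ← map_smul, ← map_smul, ← map_smul, ← map_add, ← map_add, ← map_add, ← h5,
      LinearIsometryEquiv.apply_symm_apply]
  rw [hx]
  have m1 := hmem 1 (by norm_num)
  have m2 := hmem ωa ωa_pow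
  exact Submodule.add_mem _ (Submodule.add_mem _ (Submodule.add_mem _
    (Submodule.smul_mem _ _ m1.1) (Submodule.smul_mem _ _ m2.1)) (Submodule.smul_mem _ _ m1.2))
    (Submodule.smul_mem _ _ m2.2)

lemma irreducible_Dic : IsIrreducibleAction Dic := by
  intro W hW
  by_cases h : W = ⊥
  · exact Or.inl h
  right
  obtain ⟨w, hw, hw0⟩ := Submodule.exists_mem_ne_zero_of_ne_bot h
  rw [eq_top_iff]
  intro x _
  have hv : Φ.symm w ≠ 0 := by
    intro h0
    exact hw0 (Φ.symm.injective (h0.trans (map_zero _).symm))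
  have hmem : ∀ q, IsDic q → Φ (q * Φ.symm w) ∈ W := by
    intro q hq
    exact hW (fun x => Φ (q * Φ.symm x)) (mem_maps.2 ⟨q, hq, fun x => rfl⟩) w hw
  obtain ⟨c₁, c₂, c₃, c₄, h5⟩ := decomp (Φ.symm w) (Φ.symm x) hv
  have hx : x = c₁ • Φ (qa 1 * Φ.symm w) + c₂ • Φ (qa ωa * Φ.symm w) +
      c₃ • Φ (qb 1 * Φ.symm w) + c₄ • Φ (qb ωa * Φ.symm w) := by
    rw [← map_smul, ← map_smul, ← map_smul, ← map_smul, ← map_add, ← map_add, ← map_add, ← h5,
      LinearIsometryEquiv.apply_symm_apply]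
  rw [hx]
  exact Submodule.add_mem _ (Submodule.add_mem _ (Submodule.add_mem _
    (Submodule.smul_mem _ _ (hmem _ ⟨1, by norm_num, Or.inl rfl⟩))
    (Submodule.smul_mem _ _ (hmem _ ⟨ωa, ωa_pow, Or.inl rfl⟩)))
    (Submodule.smul_mem _ _ (hmem _ ⟨1, by norm_num, Or.inr rfl⟩)))
    (Submodule.smul_mem _ _ (hmem _ ⟨ωa, ωa_pow, Or.inr rfl⟩))

lemma polytope_congr {r : ℝ} (hr : 0 < r) {v w : E 4} (hv : ‖v‖ = r) (hw : ‖w‖ = r) :
    ∃ R : E 4 ≃ₗᵢ[ℝ] E 4, orbitPolytope Dic w = R '' orbitPolytope Dic v := by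
  obtain ⟨q, hq, h⟩ := exists_rightMul hr hv hw
  refine ⟨rightMul q hq, ?_⟩
  rw [← orbitPolytope_map _ Dic (rightMul_commutes q hq), h]

lemma typeClass_eq {r : ℝ} (hr : 0 < r) {w : E 4} (hw : ‖w‖ = r) :
    typeClass Dic r w = Metric.sphere 0 r := by
  ext v
  constructor
  · intro h
    have := h.1
    rwa [regular_eq hr] at this
  · intro h
    refine ⟨by rwa [regular_eq hr], ?_⟩
    rw [mem_sphere_zero_iff_norm] at h
    obtain ⟨R, hR⟩ := polytope_congr hr hw h
    rw [hR]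
    exact sameType_map R _

lemma stratum_eq {r : ℝ} (hr : 0 < r) {w : E 4} (hw : ‖w‖ = r) :
    stratum Dic r w = Metric.sphere 0 r := by
  rw [stratum, typeClass_eq hr hw]
  apply IsPreconnected.connectedComponentIn
  · apply isPreconnected_sphere
    rw [← Module.finrank_eq_rank, finrank_euclideanSpace_fin]
    norm_num
  · rwa [mem_sphere_zero_iff_norm]

lemma lambdaOne_const {r : ℝ} (hr : 0 < r) {v w : E 4} (hv : ‖v‖ = r) (hw : ‖w‖ = r) :
    lambdaFun Dic v = lambdaFun Dic w := by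
  obtain ⟨R, hR⟩ := polytope_congr hr hv hw
  rw [lambdaFun, lambdaFun, hR, lambdaOne_map]

lemma submanifold_sphere {r : ℝ} (hr : 0 < r) : IsSubmanifold (Metric.sphere (0 : E 4) r) := by
  refine ⟨3, fun x hx => ?_⟩
  rw [mem_sphere_zero_iff_norm] at hx
  refine ⟨sphereChart x r hr hx, (Submodule.span ℝ {x})ᗮ, ?_, ?_, ?_, ?_, ?_⟩
  · change 0 < inner ℝ x x
    rw [real_inner_self_eq_norm_sq, hx]; positivity
  · exact (contDiff_chartFun x r).contDiffOn
  · exact contDiffOn_chartInv x r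
  · have : Fact (Module.finrank ℝ (E 4) = 3 + 1) := ⟨by simp⟩
    apply Submodule.finrank_orthogonal_span_singleton
    intro h0; rw [h0, norm_zero] at hx; exact hr.ne hx
  · ext z
    constructor
    · rintro ⟨y, ⟨hy1, hy2⟩, rfl⟩
      rw [mem_sphere_zero_iff_norm] at hy1
      refine ⟨(sphereChart x r hr hx).map_source hy2, ?_⟩
      rw [SetLike.mem_coe, Submodule.mem_orthogonal_singleton_iff_inner_right]
      change inner ℝ x (chartFun x r y) = 0
      rw [inner_chartFun x r hr hx, hy1]; ring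
    · rintro ⟨hz1, hz2⟩
      rw [SetLike.mem_coe, Submodule.mem_orthogonal_singleton_iff_inner_right] at hz2
      refine ⟨(sphereChart x r hr hx).symm z, ⟨?_, (sphereChart x r hr hx).map_target hz1⟩,
        (sphereChart x r hr hx).right_inv hz1⟩
      rw [mem_sphere_zero_iff_norm]
      have h1 : ‖chartInv x r z‖ ^ 2 = r ^ 2 := by
        rw [norm_chartInv x r hr hx z hz1, hz2]; ring
      have h2 : ‖chartInv x r z‖ = r := by
        have := abs_eq_abs.2 (sq_eq_sq_iff_eq_or_eq_neg.1 h1)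
        rwa [abs_of_nonneg (norm_nonneg _), abs_of_pos hr] at this
      exact h2

/-- The main result. -/
theorem main : ∃ Γ : SubgroupO 4, (maps Γ).Finite ∧ IsIrreducibleAction Γ ∧
    ∀ r : ℝ, 0 < r → HypI Γ r ∧ HypII Γ r ∧
      ∀ w : E 4, ‖w‖ = r → w ∈ regularPoints Γ r ∧ IsMinimiser Γ (stratum Γ r w) w ∧
        ¬ IsEquilateral (orbitPolytope Γ w) := by
  refine ⟨Dic, finite_Dic, irreducible_Dic, fun r hr => ⟨?_, ?_, ?_⟩⟩
  · intro w hw
    rw [stratum_eq hr hw.1]
    exact submanifold_sphere hr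
  · intro w hw
    rw [stratum_eq hr hw.1]
    have hc : ∀ v ∈ Metric.sphere (0 : E 4) r, lambdaFun Dic v = lambdaFun Dic w := by
      intro v hv
      rw [mem_sphere_zero_iff_norm] at hv
      exact lambdaOne_const hr hv hw.1
    refine ⟨(continuousOn_const (c := lambdaFun Dic w)).congr hc, w, ?_, ?_⟩
    · rw [mem_sphere_zero_iff_norm]; exact hw.1
    · intro v hv
      exact (hc v hv).ge
  · intro w hw
    refine ⟨by rw [regular_eq hr, mem_sphere_zero_iff_norm]; exact hw, ?_, ?_⟩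
    · rw [stratum_eq hr hw]
      refine ⟨by rw [mem_sphere_zero_iff_norm]; exact hw, ?_⟩
      intro v hv
      rw [mem_sphere_zero_iff_norm] at hv
      exact (lambdaOne_const hr hv hw).ge
    · intro h
      have hv : Φ.symm w ≠ 0 := by
        intro h0
        have := congrArg norm h0
        rw [LinearIsometryEquiv.norm_map, norm_zero, hw] at this
        exact hr.ne' this
      have h1 := edge_long hv
      have h2 := edge_short hv
      rw [LinearIsometryEquiv.apply_symm_apply] at h1 h2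
      have h3 := h _ _ _ _ h1 h2
      have h4 := congrArg (fun t => t ^ 2) h3
      simp only [dist_long, dist_short] at h4
      have h5 : 0 < ‖Φ.symm w‖ ^ 2 := by positivity
      linarith

end Pool.Agent.Lib.MP_427d8c_co
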